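import Pool.Agent.H.MP_78b1ee_co.Main

set_option autoImplicit false

namespace Pool.Agent.H.MP_8f6629_co
open Pool.Agent.H.MP_78b1ee_co

abbrev T3 := ℤ ×ₗ ℤ ×ₗ ℤ
def mk (a b c : ℤ) : T3 := toLex (a, toLex (b, c))

lemma mk_lt (a b c a' b' c' : ℤ) :
    mk a b c < mk a' b' c' ↔ a < a' ∨ (a = a' ∧ (b < b' ∨ (b = b' ∧ c < c'))) := by
  simp [mk, Prod.Lex.toLex_lt_toLex]

lemma mk_inj (a b c a' b' c' : ℤ) : mk a b c = mk a' b' c' ↔ a = a' ∧ b = b' ∧ c = c' := by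
  simp [mk]

def F (p k n q r : ℕ) : T3 :=
  if r = 0 then mk 2 (vz (n + 9) q) 0
  else if r = 2 then mk (-2) q 0
  else if 3 ≤ r then mk 0 (-q) r
  else if q = 1 then mk 3 0 0
  else if q = n then mk (-3) 0 0
  else if q % 2 = k % 2 then (if q + k ≤ n then mk 0 (1 - q) p else mk 0 (-q) (p + 1))
  else if k < q then mk 0 (-q) 0 else mk 0 (-q) (p + 1)

lemma Fc (p k n q r : ℕ) :
    (r = 0 ∧ F p k n q r = mk 2 (vz (n + 9) q) 0) ∨ (r = 2 ∧ F p k n q r = mk (-2) q 0) ∨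
    (3 ≤ r ∧ F p k n q r = mk 0 (-q) r) ∨ ((r = 1 ∧ q = 1) ∧ F p k n q r = mk 3 0 0) ∨
    ((r = 1 ∧ q ≠ 1 ∧ q = n) ∧ F p k n q r = mk (-3) 0 0) ∨
    ((r = 1 ∧ q ≠ 1 ∧ q ≠ n ∧ q % 2 = k % 2 ∧ q + k ≤ n) ∧ F p k n q r = mk 0 (1 - q) p) ∨
    ((r = 1 ∧ q ≠ 1 ∧ q ≠ n ∧ (q % 2 = k % 2 ∧ n < q + k ∨ q % 2 ≠ k % 2 ∧ q ≤ k)) ∧
      F p k n q r = mk 0 (-q) (p + 1)) ∨
    ((r = 1 ∧ q ≠ 1 ∧ q ≠ n ∧ q % 2 ≠ k % 2 ∧ k < q) ∧ F p k n q r = mk 0 (-q) 0) := by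
  unfold F
  split_ifs with a b c d e g h i
  · exact Or.inl ⟨a, rfl⟩
  · exact Or.inr (Or.inl ⟨b, rfl⟩)
  · exact Or.inr (Or.inr (Or.inl ⟨c, rfl⟩))
  · exact Or.inr (Or.inr (Or.inr (Or.inl ⟨by omega, rfl⟩)))
  · exact Or.inr (Or.inr (Or.inr (Or.inr (Or.inl ⟨by omega, rfl⟩))))
  · exact Or.inr (Or.inr (Or.inr (Or.inr (Or.inr (Or.inl ⟨by omega, rfl⟩)))))
  · exact Or.inr (Or.inr (Or.inr (Or.inr (Or.inr (Or.inr (Or.inl ⟨by omega, rfl⟩))))))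
  · exact Or.inr (Or.inr (Or.inr (Or.inr (Or.inr (Or.inr (Or.inr ⟨by omega, rfl⟩))))))
  · exact Or.inr (Or.inr (Or.inr (Or.inr (Or.inr (Or.inr (Or.inl ⟨by omega, rfl⟩))))))

def f (p k n y : ℕ) : T3 := F p k n (y / p) (y % p)

lemma f_eq {p : ℕ} (k n q r y : ℕ) (hr : r < p) (hy : y = p * q + r) :
    f p k n y = F p k n q r := by
  subst hy
  unfold f
  rw [Nat.mul_add_div (by omega), Nat.div_eq_of_lt hr, Nat.mul_add_mod, Nat.mod_eq_of_lt hr]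
  rfl

lemma decomp (p y : ℕ) (hp : 0 < p) : ∃ q r, r < p ∧ y = p * q + r ∧ y % p = r :=
  ⟨y / p, y % p, Nat.mod_lt _ hp, (Nat.div_add_mod y p).symm, rfl⟩

lemma mcase (p a b : ℕ) : a ≤ b ∧ p * a ≤ p * b ∨ b < a ∧ p * b + p ≤ p * a := by
  rcases le_or_gt a b with h | h
  · exact Or.inl ⟨h, Nat.mul_le_mul_left _ h⟩
  · exact Or.inr ⟨h, by rw [← Nat.mul_succ]; exact Nat.mul_le_mul_left _ h⟩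

def Pw {α : Type} [LinearOrder α] (g : ℕ → α) (k s l : ℕ) : Prop :=
  ∀ r < k, ∀ r' < k, ∀ a < l, ∀ b < l,
    (g (s + r * l + a) < g (s + r * l + b) ↔ g (s + r' * l + a) < g (s + r' * l + b))

lemma nbig (n : ℕ) : n + 1 < 2 ^ (n + 9) - 11 := by
  have h1 : n < 2 ^ n := Nat.lt_two_pow_self
  have h2 : 2 ^ (n + 9) = 2 ^ n * 512 := by rw [pow_add]; norm_num
  omega

lemma F_inj {p k n : ℕ} (hn : 2 ≤ n) {q r q' r' : ℕ} (hq : q ≤ n) (hq' : q' ≤ n) (hr : r < p) (hr' : r' < p)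
    (h : F p k n q r = F p k n q' r') : q = q' ∧ r = r' := by
  have nb := nbig n
  by_cases c : r = 0 ∧ r' = 0
  · obtain ⟨rfl, rfl⟩ := c
    simp only [F, if_true, mk_inj] at h
    refine ⟨val_inj (n := n + 9) (by omega) (by omega) (by omega) ?_, rfl⟩
    unfold val; rw [h.2.1]
  · rcases Fc p k n q r with ⟨u, e⟩ | ⟨u, e⟩ | ⟨u, e⟩ | ⟨u, e⟩ | ⟨u, e⟩ | ⟨u, e⟩ | ⟨u, e⟩ | ⟨u, e⟩ <;>
    rcases Fc p k n q' r' with ⟨u', e'⟩ | ⟨u', e'⟩ | ⟨u', e'⟩ | ⟨u', e'⟩ | ⟨u', e'⟩ | ⟨u', e'⟩ | ⟨u', e'⟩ | ⟨u', e'⟩ <;>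
    rw [e, e', mk_inj] at h <;> omega

lemma f_inj {p k n : ℕ} (hn : 2 ≤ n) (hp : 2 ≤ p) {y y' : ℕ} (h1 : y ≤ p * n + 1)
    (h2 : y' ≤ p * n + 1) (h : f p k n y = f p k n y') : y = y' := by
  obtain ⟨q, r, hr, hy, -⟩ := decomp p y (by omega)
  obtain ⟨q', r', hr', hy', -⟩ := decomp p y' (by omega)
  rw [f_eq k n q r y hr hy, f_eq k n q' r' y' hr' hy'] at h
  have a := mcase p q n
  have b := mcase p q' n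
  obtain ⟨rfl, rfl⟩ := F_inj hn (by omega) (by omega) hr hr' h
  omega

lemma step {p k n : ℕ} (hn : 2 ≤ n) (hp : 6 ≤ p) {y : ℕ} (h1 : p + 1 ≤ y) (h2 : y ≤ p * n) :
    f p k n y < f p k n (y + 1) ↔ 2 ≤ y % p := by
  obtain ⟨q, r, hr, hy, hm⟩ := decomp p y (by omega)
  rw [hm, f_eq k n q r y hr hy]
  have a := mcase p n q
  have b := mcase p q 1
  have a' : q = n → r = 0 := by rintro rfl; omega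
  have b' : q = 1 → r ≠ 0 := by rintro rfl; omega
  by_cases c : r + 1 < p
  · rw [f_eq k n q (r + 1) (y + 1) c (by omega)]
    clear a b hy hm h1 h2
    rcases Fc p k n q r with ⟨u, e⟩ | ⟨u, e⟩ | ⟨u, e⟩ | ⟨u, e⟩ | ⟨u, e⟩ | ⟨u, e⟩ | ⟨u, e⟩ | ⟨u, e⟩ <;>
    rcases Fc p k n q (r + 1) with ⟨u', e'⟩ | ⟨u', e'⟩ | ⟨u', e'⟩ | ⟨u', e'⟩ | ⟨u', e'⟩ | ⟨u', e'⟩ | ⟨u', e'⟩ | ⟨u', e'⟩ <;>
    rw [e, e', mk_lt] <;> omega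
  · rw [f_eq k n (q + 1) 0 (y + 1) (by omega) (by rw [Nat.mul_succ]; omega)]
    clear a b hy hm h1 h2
    rcases Fc p k n q r with ⟨u, e⟩ | ⟨u, e⟩ | ⟨u, e⟩ | ⟨u, e⟩ | ⟨u, e⟩ | ⟨u, e⟩ | ⟨u, e⟩ | ⟨u, e⟩ <;>
    rcases Fc p k n (q + 1) 0 with ⟨u', e'⟩ | ⟨u', e'⟩ | ⟨u', e'⟩ | ⟨u', e'⟩ | ⟨u', e'⟩ | ⟨u', e'⟩ | ⟨u', e'⟩ | ⟨u', e'⟩ <;>
    rw [e, e', mk_lt] <;> omega

lemma mod3 {p z l : ℕ} (hp : 6 ≤ p) (h0 : z % p < 2) (h1 : (z + l) % p < 2)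
    (h2 : (z + 2 * l) % p < 2) : l % p = 0 := by
  have e : z % p + (z + 2 * l) % p ≡ (z + l) % p + (z + l) % p [MOD p] := by
    have a : z % p + (z + 2 * l) % p ≡ z + (z + 2 * l) [MOD p] :=
      (Nat.mod_modEq _ _).add (Nat.mod_modEq _ _)
    have b : (z + l) % p + (z + l) % p ≡ (z + l) + (z + l) [MOD p] :=
      (Nat.mod_modEq _ _).add (Nat.mod_modEq _ _)
    rw [show z + (z + 2 * l) = (z + l) + (z + l) by ring] at a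
    exact a.trans b.symm
  have e2 := Nat.ModEq.eq_of_lt_of_lt e (by omega) (by omega)
  have e3 : z + l ≡ z + 0 [MOD p] := by
    unfold Nat.ModEq; rw [Nat.add_zero]; omega
  have := Nat.ModEq.add_left_cancel' z e3
  simpa [Nat.ModEq] using this

lemma alpha {p k n q : ℕ} (hp : 6 ≤ p) (hk : 0 < k) (hq : q < n) :
    F p k n q 3 < F p k n q 1 ↔ ¬ (q % 2 ≠ k % 2 ∧ k < q) := by
  rcases Fc p k n q 3 with ⟨u, e⟩ | ⟨u, e⟩ | ⟨u, e⟩ | ⟨u, e⟩ | ⟨u, e⟩ | ⟨u, e⟩ | ⟨u, e⟩ | ⟨u, e⟩ <;>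
    rcases Fc p k n q 1 with ⟨u', e'⟩ | ⟨u', e'⟩ | ⟨u', e'⟩ | ⟨u', e'⟩ | ⟨u', e'⟩ | ⟨u', e'⟩ | ⟨u', e'⟩ | ⟨u', e'⟩ <;>
    rw [e, e', mk_lt] <;> omega

lemma beta {p k n q : ℕ} (hp : 6 ≤ p) (hk : 0 < k) (hq : 1 ≤ q) (hq' : q + 1 ≤ n) :
    F p k n q (p - 1) < F p k n (q + 1) 1 ↔ ((q + 1) % 2 = k % 2 ∧ q + 1 + k ≤ n) := by
  rcases Fc p k n q (p - 1) with ⟨u, e⟩ | ⟨u, e⟩ | ⟨u, e⟩ | ⟨u, e⟩ | ⟨u, e⟩ | ⟨u, e⟩ | ⟨u, e⟩ | ⟨u, e⟩ <;>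
    rcases Fc p k n (q + 1) 1 with ⟨u', e'⟩ | ⟨u', e'⟩ | ⟨u', e'⟩ | ⟨u', e'⟩ | ⟨u', e'⟩ | ⟨u', e'⟩ | ⟨u', e'⟩ | ⟨u', e'⟩ <;>
    rw [e, e', mk_lt] <;> omega

def rkL (p a : ℕ) : ℕ := if a = 0 then p + 1 else if a = 1 then p else a

lemma patL {p k n q a b : ℕ} (hn : 2 * k ≤ n) (hq : 1 ≤ q) (hq' : q ≤ k) (ha : a < p) (hb : b < p)
    (ha' : q = 1 → a ≠ 0) (hb' : q = 1 → b ≠ 0) (hk : 2 ≤ k) :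
    F p k n q a < F p k n q b ↔ rkL p a < rkL p b := by
  have ra : a = 0 ∧ rkL p a = p + 1 ∨ a = 1 ∧ rkL p a = p ∨ 2 ≤ a ∧ rkL p a = a := by
    unfold rkL; split_ifs <;> omega
  have rb : b = 0 ∧ rkL p b = p + 1 ∨ b = 1 ∧ rkL p b = p ∨ 2 ≤ b ∧ rkL p b = b := by
    unfold rkL; split_ifs <;> omega
  rcases Fc p k n q a with ⟨u, e⟩ | ⟨u, e⟩ | ⟨u, e⟩ | ⟨u, e⟩ | ⟨u, e⟩ | ⟨u, e⟩ | ⟨u, e⟩ | ⟨u, e⟩ <;>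
    rcases Fc p k n q b with ⟨u', e'⟩ | ⟨u', e'⟩ | ⟨u', e'⟩ | ⟨u', e'⟩ | ⟨u', e'⟩ | ⟨u', e'⟩ | ⟨u', e'⟩ | ⟨u', e'⟩ <;>
    rw [e, e', mk_lt] <;> omega

def rkR (p a : ℕ) : ℕ := if a + 1 = p then 0 else if a + 2 = p then 1 else a + 2

lemma patR {p k n q a b : ℕ} (hp : 6 ≤ p) (hn : 2 * k ≤ n) (hev : n % 2 = 0) (hq : n ≤ q + k)
    (hq' : q + 1 ≤ n) (ha : a < p) (hb : b < p)
    (ha' : q + 1 = n → a + 1 ≠ p) (hb' : q + 1 = n → b + 1 ≠ p) (hk : 2 ≤ k) :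
    f p k n (p * q + 3 + a) < f p k n (p * q + 3 + b) ↔ rkR p a < rkR p b := by
  have ra : a + 1 = p ∧ rkR p a = 0 ∨ a + 2 = p ∧ rkR p a = 1 ∨ a + 3 ≤ p ∧ rkR p a = a + 2 := by
    unfold rkR; split_ifs <;> omega
  have rb : b + 1 = p ∧ rkR p b = 0 ∨ b + 2 = p ∧ rkR p b = 1 ∨ b + 3 ≤ p ∧ rkR p b = b + 2 := by
    unfold rkR; split_ifs <;> omega
  have ev : ∀ a < p, ∃ q' r', f p k n (p * q + 3 + a) = F p k n q' r' ∧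
      (q' = q ∧ r' = a + 3 ∧ a + 3 < p ∨ q' = q + 1 ∧ r' + p = a + 3) := by
    intro a ha
    by_cases c : a + 3 < p
    · exact ⟨q, a + 3, f_eq k n _ _ _ c (by omega), Or.inl ⟨rfl, rfl, c⟩⟩
    · exact ⟨q + 1, a + 3 - p, f_eq k n _ _ _ (by omega) (by rw [Nat.mul_succ]; omega),
        Or.inr ⟨rfl, by omega⟩⟩
  obtain ⟨q1, r1, e1, h1⟩ := ev a ha
  obtain ⟨q2, r2, e2, h2⟩ := ev b hb
  rw [e1, e2]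
  clear e1 e2 ev
  by_cases c : r1 = 0 ∧ r2 = 0
  · have : q1 = q2 ∧ r1 = r2 ∧ a = b := by omega
    obtain ⟨rfl, rfl, rfl⟩ := this
    simp
  rcases Fc p k n q1 r1 with ⟨u, e⟩ | ⟨u, e⟩ | ⟨u, e⟩ | ⟨u, e⟩ | ⟨u, e⟩ | ⟨u, e⟩ | ⟨u, e⟩ | ⟨u, e⟩ <;>
    rcases Fc p k n q2 r2 with ⟨u', e'⟩ | ⟨u', e'⟩ | ⟨u', e'⟩ | ⟨u', e'⟩ | ⟨u', e'⟩ | ⟨u', e'⟩ | ⟨u', e'⟩ | ⟨u', e'⟩ <;>
    rw [e, e', mk_lt] <;> omega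

end Pool.Agent.H.MP_8f6629_co
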