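import Pool.Agent.H.MP_8f6629_co.Basic

set_option autoImplicit false

namespace Pool.Agent.H.MP_8f6629_co
open Pool.Agent.H.MP_78b1ee_co

lemma nopowA {p k n s l : ℕ} (hp : p = 2 * k) (hk : 3 ≤ k) (hn : 2 ≤ n) (hl : 2 ≤ l)
    (hs : p + 1 ≤ s) (hs' : s + k * l ≤ p * n + 2) (H : Pw (f p k n) k s l) : l % p = 0 := by
  by_contra hc
  have bd : ∀ r < k, r * l + l ≤ k * l := fun r hr => by
    rw [← Nat.succ_mul]; exact Nat.mul_le_mul_right _ hr
  have st : ∀ r < k, ∀ o, o + 1 < l → (2 ≤ (s + r * l + o) % p ↔ 2 ≤ (s + o) % p) := by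
    intro r hr o ho
    have := H r hr 0 (by omega) o (by omega) (o + 1) ho
    have b1 := bd r hr
    rw [← Nat.add_assoc, ← Nat.add_assoc, step hn (by omega) (by omega) (by omega),
      step hn (by omega) (by omega) (by omega)] at this
    simpa using this
  have U : ∀ r < k, ∀ o, o + 1 < l → 2 ≤ (s + r * l + o) % p := by
    intro r hr o ho
    rw [st r hr o ho]
    by_contra h
    apply hc
    have h1 := st 1 (by omega) o ho
    have h2 := st 2 (by omega) o ho
    apply mod3 (z := s + o) (by omega) (by omega)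
    · rw [show s + o + l = s + 1 * l + o by ring]; omega
    · rw [show s + o + 2 * l = s + 2 * l + o by ring]; omega
  obtain ⟨m, m1, m2⟩ := next_mul p s (by omega)
  obtain ⟨r, o, ho, e, -⟩ := decomp l (p * m - s) (by omega)
  rw [mul_comm l r] at e
  have kl : 2 * k ≤ k * l := by rw [mul_comm 2 k]; exact Nat.mul_le_mul_left _ hl
  have hr : r < k := by
    by_contra h
    have := Nat.mul_le_mul_right l (not_lt.1 h)
    omega
  by_cases c : o + 1 < l
  · have := U r hr o c
    rw [show s + r * l + o = p * m by omega, Nat.mul_mod_right] at this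
    omega
  by_cases c2 : r + 1 < k
  · have := U (r + 1) c2 0 (by omega)
    rw [show s + (r + 1) * l + 0 = p * m + 1 by rw [Nat.succ_mul]; omega, Nat.mul_add_mod,
      Nat.mod_eq_of_lt (by omega)] at this
    omega
  · have e2 : k * l = r * l + l := by rw [show k = r + 1 by omega, Nat.succ_mul]
    have := U 0 (by omega) 0 (by omega)
    have e3 : s + p = p * m + 1 := by omega
    have e4 : (s + p) % p = 1 := by rw [e3, Nat.mul_add_mod, Nat.mod_eq_of_lt (by omega)]
    simp only [Nat.add_mod_right, Nat.zero_mul, Nat.add_zero] at this e4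
    omega

lemma nopowB {p k n s m : ℕ} (hp : p = 2 * k) (hk : 3 ≤ k) (hm : 2 ≤ m)
    (hs' : s + k * (p * m) ≤ p * n + 2) : ¬ Pw (f p k n) k s (p * m) := by
  intro H
  obtain ⟨j, m1, m2⟩ := next_mul p s (by omega)
  have nb := nbig n
  have b1 : 2 * (p * m) + p * m ≤ k * (p * m) := by
    rw [← Nat.succ_mul]; exact Nat.mul_le_mul_right _ hk
  have b2 : p * 2 ≤ p * m := Nat.mul_le_mul_left _ hm
  have b3 : j + 2 * m ≤ n := by
    have := mcase p (j + 2 * m) n
    rw [mul_add, mul_left_comm] at this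
    omega
  apply nosq (n := n + 9) (by omega) j m hm (by omega)
  have off : ∀ a < m, p * j - s + p * a < p * m := fun a ha => by
    have : p * a + p ≤ p * m := by rw [← Nat.mul_succ]; exact Nat.mul_le_mul_left _ ha
    omega
  intro a ha b hb
  have := H 0 (by omega) 1 (by omega) _ (off a ha) _ (off b hb)
  rw [f_eq k n (j + a) 0 _ (by omega) (by rw [mul_add]; omega),
    f_eq k n (j + b) 0 _ (by omega) (by rw [mul_add]; omega),
    f_eq k n (j + m + a) 0 _ (by omega) (by rw [mul_add, mul_add]; omega),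
    f_eq k n (j + m + b) 0 _ (by omega) (by rw [mul_add, mul_add]; omega)] at this
  simp only [F, if_true, mk_lt, lt_irrefl, and_false, or_false, false_or, true_and] at this
  unfold val
  rw [Int.cast_lt, Int.cast_lt]
  exact this

lemma nopowC {p k n s : ℕ} (hp : p = 2 * k) (hk : 3 ≤ k) (hn : 2 * k ≤ n) (hev : n % 2 = 0)
    (hs : p + 1 ≤ s) (hs' : s + k * p ≤ p * n + 2) : ¬ Pw (f p k n) k s p := by
  intro H
  obtain ⟨j, t, ht, e, -⟩ := decomp p s (by omega)
  have c1 := mcase p j 1
  have c2 := mcase p n (j + k)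
  have c3 := mcase p (j + k) n
  rw [mul_add, mul_comm p k] at c2 c3
  have c4 : j = 1 → p * j = p := by rintro rfl; simp
  have c5 : j = 0 → p * j = 0 := by rintro rfl; simp
  have c6 : j + k = n → p * j + k * p = p * n := by rintro rfl; ring
  have ev : ∀ r a q u, u < p → (q = j + r ∧ u = t + a ∨ q = j + r + 1 ∧ u + p = t + a) →
      f p k n (s + r * p + a) = F p k n q u := by
    intro r a q u hu h
    apply f_eq k n q u _ hu
    rcases h with ⟨rfl, rfl⟩ | ⟨rfl, h⟩
    · rw [e]; ring
    · rw [e, mul_add, mul_add, mul_comm r p]; omega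
  by_cases d1 : t ≤ 1
  · by_cases d2 : j = 1
    · have := H 0 (by omega) 1 (by omega) 0 (by omega) (p - 1) (by omega)
      rw [ev 0 0 1 1 (by omega) (by omega), ev 0 (p - 1) 2 0 (by omega) (by omega),
        ev 1 0 2 1 (by omega) (by omega), ev 1 (p - 1) 3 0 (by omega) (by omega)] at this
      rcases Fc p k n 2 1 with ⟨u, e⟩ | ⟨u, e⟩ | ⟨u, e⟩ | ⟨u, e⟩ | ⟨u, e⟩ | ⟨u, e⟩ | ⟨u, e⟩ | ⟨u, e⟩ <;>
        rw [e] at this <;> simp [F, mk_lt] at this <;> omega
    · have A : ∀ r < k, ∀ r' < k, (¬ ((j + r) % 2 ≠ k % 2 ∧ k < j + r) ↔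
          ¬ ((j + r') % 2 ≠ k % 2 ∧ k < j + r')) := by
        intro r hr r' hr'
        have := H r hr r' hr' (3 - t) (by omega) (1 - t) (by omega)
        rwa [ev r _ (j + r) 3 (by omega) (by omega), ev r _ (j + r) 1 (by omega) (by omega),
          ev r' _ (j + r') 3 (by omega) (by omega), ev r' _ (j + r') 1 (by omega) (by omega),
          alpha (by omega) (by omega) (by omega), alpha (by omega) (by omega) (by omega)] at this
      have := A (k - 1) (by omega) (k - 2) (by omega)
      omega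
  · by_cases d2 : j + k = n
    · have := H (k - 1) (by omega) (k - 2) (by omega) 0 (by omega) (p - 1) (by omega)
      rw [ev _ 0 (n - 1) 2 (by omega) (by omega), ev _ (p - 1) n 1 (by omega) (by omega),
        ev _ 0 (n - 2) 2 (by omega) (by omega), ev _ (p - 1) (n - 1) 1 (by omega) (by omega)] at this
      have e1 : F p k n n 1 = mk (-3) 0 0 := by
        rcases Fc p k n n 1 with ⟨u, e⟩ | ⟨u, e⟩ | ⟨u, e⟩ | ⟨u, e⟩ | ⟨u, e⟩ | ⟨u, e⟩ | ⟨u, e⟩ | ⟨u, e⟩ <;>
          first | exact e | omega
      have e2 : ∀ q, F p k n q 2 = mk (-2) q 0 := fun q => by simp [F]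
      rw [e1, e2, e2] at this
      rcases Fc p k n (n - 1) 1 with ⟨u, e⟩ | ⟨u, e⟩ | ⟨u, e⟩ | ⟨u, e⟩ | ⟨u, e⟩ | ⟨u, e⟩ | ⟨u, e⟩ | ⟨u, e⟩ <;>
        rw [e, mk_lt, mk_lt] at this <;> omega
    · have A : ∀ r < k, ∀ r' < k, (((j + r + 1) % 2 = k % 2 ∧ j + r + 1 + k ≤ n) ↔
          ((j + r' + 1) % 2 = k % 2 ∧ j + r' + 1 + k ≤ n)) := by
        intro r hr r' hr'
        have := H r hr r' hr' (p - 1 - t) (by omega) (p + 1 - t) (by omega)
        rwa [ev r _ (j + r) (p - 1) (by omega) (by omega),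
          ev r _ (j + r + 1) 1 (by omega) (by omega),
          ev r' _ (j + r') (p - 1) (by omega) (by omega),
          ev r' _ (j + r' + 1) 1 (by omega) (by omega),
          beta (by omega) (by omega) (by omega) (by omega),
          beta (by omega) (by omega) (by omega) (by omega)] at this
      have := A 0 (by omega) 1 (by omega)
      omega

lemma nopow {p k n s l : ℕ} (hp : p = 2 * k) (hk : 3 ≤ k) (hn : 2 * k ≤ n) (hev : n % 2 = 0)
    (hl : 2 ≤ l) (hs : p + 1 ≤ s) (hs' : s + k * l ≤ p * n + 2) : ¬ Pw (f p k n) k s l := by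
  intro H
  have h0 := nopowA hp hk (by omega) hl hs hs' H
  obtain ⟨m, rfl⟩ := Nat.dvd_of_mod_eq_zero h0
  rcases m with _ | _ | m
  · omega
  · simp only [Nat.zero_add, Nat.mul_one] at H hs'
    exact nopowC hp hk hn hev hs hs' H
  · exact nopowB hp hk (by omega) hs' H

lemma pw_of_pat {α : Type} [LinearOrder α] (g : ℕ → α) (k s l : ℕ) (rk : ℕ → ℕ)
    (h : ∀ r < k, ∀ a < l, ∀ b < l, (g (s + r * l + a) < g (s + r * l + b) ↔ rk a < rk b)) :
    Pw g k s l := fun r hr r' hr' a ha b hb => (h r hr a ha b hb).trans (h r' hr' a ha b hb).symm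

lemma pw2 {α : Type} [LinearOrder α] (g : ℕ → α) (k s : ℕ)
    (h : ∀ r < k, g (s + r * 2) < g (s + r * 2 + 1)) : Pw g k s 2 := by
  apply pw_of_pat g k s 2 id
  intro r hr a ha b hb
  have := h r hr
  interval_cases a <;> interval_cases b <;> simp [this, this.le]

lemma leftX {α : Type} [LinearOrder α] {p k n : ℕ} (hp : p = 2 * k) (hk : 3 ≤ k) (hn : 2 * k ≤ n)
    (t : ℕ → α) (ht : ∀ y y', p + 1 ≤ y → y ≤ p * n + 1 → p + 1 ≤ y' → y' ≤ p * n + 1 →
      (t y < t y' ↔ f p k n y < f p k n y')) (hne : t p ≠ t (p + 1)) :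
    ∃ l, 2 ≤ l ∧ p + k * l ≤ p * n + 2 ∧ Pw t k p l := by
  have b1 : p * k + p ≤ p * n := by rw [← Nat.mul_succ]; exact Nat.mul_le_mul_left _ (by omega)
  have b2 : p * 3 ≤ p * k := Nat.mul_le_mul_left _ hk
  rcases lt_or_gt_of_ne hne with h | h
  · refine ⟨2, le_rfl, by omega, pw2 t k p fun r hr => ?_⟩
    rcases r with _ | r
    · simpa using h
    · rw [ht _ _ (by omega) (by omega) (by omega) (by omega),
        step (by omega) (by omega) (by omega) (by omega), Nat.add_mod_left,
        Nat.mod_eq_of_lt (by omega)]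
      omega
  · refine ⟨p, by omega, by rw [mul_comm k p]; omega, pw_of_pat t k p p (rkL p) ?_⟩
    have gen : ∀ r < k, ∀ a < p, ∀ b < p, (r = 0 → a ≠ 0) → (r = 0 → b ≠ 0) →
        (t (p + r * p + a) < t (p + r * p + b) ↔ rkL p a < rkL p b) := by
      intro r hr a ha b hb h1 h2
      have : r * p + p ≤ p * k := by
        rw [← Nat.succ_mul, mul_comm p k]; exact Nat.mul_le_mul_right _ hr
      have z : r ≠ 0 → p ≤ r * p := fun h => Nat.le_mul_of_pos_left _ (by omega)
      rw [ht _ _ (by omega) (by omega) (by omega) (by omega),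
        f_eq k n (r + 1) a _ ha (by ring), f_eq k n (r + 1) b _ hb (by ring)]
      exact patL hn (by omega) (by omega) ha hb (by omega) (by omega) (by omega)
    have top : ∀ b < p, b ≠ 0 → t (p + b) < t p := by
      intro b hb h0
      by_cases c : b = 1
      · subst c; exact h
      · have := (gen 0 (by omega) b hb 1 (by omega) (by omega) (by omega)).2
          (by unfold rkL; split_ifs <;> omega)
        simp only [Nat.zero_mul, Nat.add_zero] at this
        exact this.trans h
    intro r hr a ha b hb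
    by_cases c : r = 0 ∧ (a = 0 ∨ b = 0)
    · obtain ⟨rfl, c⟩ := c
      simp only [Nat.zero_mul, Nat.add_zero]
      by_cases ca : a = 0 <;> by_cases cb : b = 0
      · subst ca; subst cb; simp
      · subst ca
        exact iff_of_false (not_lt.2 (top b hb cb).le) (by unfold rkL; split_ifs <;> omega)
      · subst cb
        exact iff_of_true (top a ha ca) (by unfold rkL; split_ifs <;> omega)
      · omega
    · exact gen r hr a ha b hb (by omega) (by omega)

lemma rightX {α : Type} [LinearOrder α] {p k n : ℕ} (hp : p = 2 * k) (hk : 3 ≤ k) (hn : 2 * k ≤ n)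
    (hev : n % 2 = 0)
    (t : ℕ → α) (ht : ∀ y y', p + 1 ≤ y → y ≤ p * n + 1 → p + 1 ≤ y' → y' ≤ p * n + 1 →
      (t y < t y' ↔ f p k n y < f p k n y')) (hne : t (p * n + 1) ≠ t (p * n + 2)) :
    ∃ s l, 2 ≤ l ∧ p + 1 ≤ s ∧ s + k * l ≤ p * n + 3 ∧ Pw t k s l := by
  obtain ⟨j, rfl⟩ : ∃ j, n = j + k := ⟨n - k, by omega⟩
  have b0 : p * (j + k) = p * j + k * p := by ring
  have b1 : p * 3 ≤ p * j := Nat.mul_le_mul_left _ (by omega)
  have b2 : 3 * p ≤ k * p := Nat.mul_le_mul_right _ hk
  rcases lt_or_gt_of_ne hne with h | h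
  · refine ⟨p * (j + k) + 3 - p, 2, le_rfl, by omega, by omega, pw2 t k _ fun r hr => ?_⟩
    by_cases c : r + 1 = k
    · rw [show p * (j + k) + 3 - p + r * 2 = p * (j + k) + 1 by omega]
      exact h
    · rw [ht _ _ (by omega) (by omega) (by omega) (by omega),
        step (by omega) (by omega) (by omega) (by omega), ← Nat.add_mod_right,
        show p * (j + k) + 3 - p + r * 2 + p = p * (j + k) + (3 + r * 2) by omega,
        Nat.mul_add_mod, Nat.mod_eq_of_lt (by omega)]
      omega
  · refine ⟨p * j + 3, p, by omega, by omega, by omega, pw_of_pat t k _ p (rkR p) ?_⟩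
    have gen : ∀ r < k, ∀ a < p, ∀ b < p, (r + 1 = k → a + 1 ≠ p) → (r + 1 = k → b + 1 ≠ p) →
        (t (p * j + 3 + r * p + a) < t (p * j + 3 + r * p + b) ↔ rkR p a < rkR p b) := by
      intro r hr a ha b hb h1 h2
      have : r * p + p ≤ k * p := by
        rw [← Nat.succ_mul]; exact Nat.mul_le_mul_right _ hr
      have z : r + 1 ≠ k → r * p + p + p ≤ k * p := fun h => by
        rw [← Nat.succ_mul, ← Nat.succ_mul]; exact Nat.mul_le_mul_right _ (by omega)
      rw [ht _ _ (by omega) (by omega) (by omega) (by omega),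
        show p * j + 3 + r * p = p * (j + r) + 3 by ring]
      exact patR (by omega) hn hev (by omega) (by omega) ha hb (by omega) (by omega) (by omega)
    obtain ⟨k', rfl⟩ : ∃ k', k = k' + 1 := ⟨k - 1, by omega⟩
    have b3 : (k' + 1) * p = k' * p + p := Nat.succ_mul _ _
    have bot : ∀ b < p, b + 1 ≠ p → t (p * (j + (k' + 1)) + 2) < t (p * j + 3 + k' * p + b) := by
      intro b hb h0
      by_cases c : b + 2 = p
      · rw [show p * j + 3 + k' * p + b = p * (j + (k' + 1)) + 1 by omega]; exact h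
      · have := (gen k' (by omega) (p - 2) (by omega) b hb (by omega) (by omega)).2
          (by unfold rkR; split_ifs <;> omega)
        rw [show p * j + 3 + k' * p + (p - 2) = p * (j + (k' + 1)) + 1 by omega] at this
        exact h.trans this
    intro r hr a ha b hb
    by_cases c : r = k' ∧ (a + 1 = p ∨ b + 1 = p)
    · obtain ⟨rfl, c⟩ := c
      by_cases ca : a + 1 = p <;> by_cases cb : b + 1 = p
      · rw [show a = b by omega]; simp
      · rw [show p * j + 3 + r * p + a = p * (j + (r + 1)) + 2 by omega]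
        exact iff_of_true (bot b hb cb) (by unfold rkR; split_ifs <;> omega)
      · rw [show p * j + 3 + r * p + b = p * (j + (r + 1)) + 2 by omega]
        exact iff_of_false (not_lt.2 (bot a ha ca).le) (by unfold rkR; split_ifs <;> omega)
      · omega
    · exact gen r hr a ha b hb (by omega) (by omega)

lemma exists_perm {α : Type} [LinearOrder α] {L : ℕ} (g : Fin L → α) (hg : Function.Injective g) :
    ∃ σ : Equiv.Perm (Fin L), ∀ i j, σ i < σ j ↔ g i < g j := by
  refine ⟨(Tuple.sort g)⁻¹, fun i j => ?_⟩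
  have hm : StrictMono (g ∘ Tuple.sort g) :=
    (Tuple.monotone_sort g).strictMono_of_injective (hg.comp (Tuple.sort g).injective)
  rw [← hm.lt_iff_lt]
  simp

end Pool.Agent.H.MP_8f6629_co
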